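import Pool.Agent.Lib.MP_b5021c_nt.AllE
import Pool.Agent.Lib.MP_b5021c_nt.E.H62.AllT3
import Pool.Agent.Lib.MP_b5021c_nt.E.H62.AllT4
import Pool.Agent.Lib.MP_b5021c_nt.E.H62.Mall

/-!
# MP_b5021c_nt: the exact value of `m_k` for every `k ≥ 1`

The least element `m_k` of the `k`-th derived set `S^(k)` of the set of Pisot numbers is
`k / 2 + 1` for even `k` and `((k + 1) + √((k + 1)² + 16)) / 4` for odd `k`.
-/

namespace Pool.Agent.Results.MP_b5021c_nt.ExactValue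

open Polynomial

/-- The set `S` of Pisot numbers: real algebraic integers `θ > 1` all of whose conjugates `γ ≠ θ`
satisfy `|γ| < 1`. -/
def Pisot : Set ℝ := {θ | 1 < θ ∧ IsIntegral ℤ θ ∧
  ∀ γ : ℂ, aeval γ (minpoly ℤ θ) = 0 → γ ≠ (θ : ℂ) → ‖γ‖ < 1}

/-- For every `k ≥ 1` the least element `m_k` of the `k`-th derived set `S^(k)` of the set of Pisot
numbers is `k / 2 + 1` if `k` is even and `((k + 1) + √((k + 1)² + 16)) / 4` if `k` is odd. -/
theorem result : ∀ k : ℕ, 1 ≤ k →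
    (Even k → IsLeast (derivedSet^[k] Pisot) ((k : ℝ) / 2 + 1)) ∧
    (Odd k → IsLeast (derivedSet^[k] Pisot)
      ((((k : ℝ) + 1) + Real.sqrt (((k : ℝ) + 1) ^ 2 + 16)) / 4)) := by
  intro k hk
  have h := Pool.Agent.B5.H62.mall_all Pool.Agent.MP_b5021c_nt.AllE.rk_ThkS
    Pool.Agent.MP_b5021c_nt.AllE.r_GdzS Pool.Agent.MP_b5021c_nt.AllE.r_UpqS
    Pool.Agent.MP_b5021c_nt.AllE.rk_UplS Pool.Agent.MP_b5021c_nt.AllT3.r_Bn2S
    Pool.Agent.MP_b5021c_nt.AllT3.r_Bn3S Pool.Agent.MP_b5021c_nt.AllT3.r_KeStS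
    (Pool.Agent.MP_b5021c_nt.AllT3.r_KoStS Pool.Agent.MP_b5021c_nt.AllT4.r_Ob4S) k hk
  refine ⟨fun he => ?_, fun ho => ?_⟩
  · have h1 : ¬ Even (k + 1) := by
      rw [Nat.even_add_one, not_not]
      exact he
    rw [Pool.Agent.B5.tauK, if_neg h1] at h
    have h2 : (((k + 1 : ℕ) : ℝ) + 1) / 2 = (k : ℝ) / 2 + 1 := by push_cast; ring
    rw [h2] at h
    exact h
  · have h1 : Even (k + 1) := ho.add_one
    rw [Pool.Agent.B5.tauK, if_pos h1] at h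
    have h2 : ((k + 1 : ℕ) : ℝ) = (k : ℝ) + 1 := by push_cast; ring
    rw [h2] at h
    exact h

end Pool.Agent.Results.MP_b5021c_nt.ExactValue
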